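import Pool.Agent.Y581.WN.StmB

/-! Project WN, part SATK (job 8007): the truth of the instances with keys. -/

set_option autoImplicit false

namespace Pool.Agent.Y448.WN

open Pool.Agent.NPC Pool.Agent.H620R2.Gauge Pool.Agent.TH678.GC Pool.Agent.H591R3.PHG
  Pool.Agent.Y626.WG Pool.Agent.Y581.WN

/-- the truth values of the relations to small numbers -/
def small (rest y : List ℕ) : List Bool := List.zipWith (fun r a => decide (a < 2 ^ r)) rest y

theorem length_small {rest y : List ℕ} (h : y.length = rest.length) :
    (small rest y).length = rest.length := by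
  unfold small
  rw [List.length_zipWith, h, Nat.min_self]

theorem small_get {rest y : List ℕ} {i : ℕ} (h : i < (small rest y).length)
    (h1 : i < rest.length) (h2 : i < y.length) :
    (small rest y)[i] = decide (y[i] < 2 ^ rest[i]) :=
  List.getElem_zipWith ..

theorem mem_allB : ∀ (n : ℕ) (l : List Bool), l ∈ allB n ↔ l.length = n
  | 0, l => by
    show l ∈ [[]] ↔ _
    rw [List.mem_singleton, List.length_eq_zero_iff]
  | n + 1, l => by
    show l ∈ (allB n).map (List.cons false) ++ (allB n).map (List.cons true) ↔ _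
    rw [List.mem_append, List.mem_map, List.mem_map]
    constructor
    · rintro (⟨a, ha, rfl⟩ | ⟨a, ha, rfl⟩)
      · rw [List.length_cons, (mem_allB n a).1 ha]
      · rw [List.length_cons, (mem_allB n a).1 ha]
    · intro h
      rcases l with _ | ⟨b, l⟩
      · simp at h
      · rw [List.length_cons] at h
        have h1 : l ∈ allB n := (mem_allB n l).2 (by omega)
        cases b with
        | false => exact Or.inl ⟨l, h1, rfl⟩
        | true => exact Or.inr ⟨l, h1, rfl⟩

/-- a matrix that does not depend on the variables -/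
theorem holds_const {N : ℕ} {P : List ℕ → Prop} {Q : Prop} (hN : 1 ≤ N) :
    ∀ (bs : List ℕ) (b : Bool) (v : List ℕ),
      (∀ y : List ℕ, y.length = bs.sum → (∀ a ∈ y, a < N) → (P (v ++ y) ↔ Q)) →
      (Holds N P b bs v ↔ Q)
  | [], b, v, h => by
    have := h [] rfl (by simp)
    rw [List.append_nil] at this
    cases b <;> exact this
  | s :: bs, b, v, h => by
    have h1 : ∀ w : List ℕ, w.length = s → (∀ a ∈ w, a < N) → ∀ b',
        (Holds N P b' bs (v ++ w) ↔ Q) := by
      intro w hw1 hw2 b'
      refine holds_const hN bs b' (v ++ w) fun y hy1 hy2 => ?_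
      rw [List.append_assoc]
      refine h _ (by rw [List.length_append, List.sum_cons, hw1, hy1]) fun a ha => ?_
      rcases List.mem_append.1 ha with ha | ha
      · exact hw2 a ha
      · exact hy2 a ha
    have h2 : (List.replicate s 0).length = s := List.length_replicate
    have h3 : ∀ a ∈ List.replicate s 0, a < N := fun a ha => by
      rw [List.eq_of_mem_replicate ha]
      omega
    cases b with
    | true =>
      unfold Holds
      constructor
      · rintro ⟨w, hw1, hw2, hw⟩
        exact (h1 w hw1 hw2 false).1 hw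
      · intro hQ
        exact ⟨_, h2, h3, (h1 _ h2 h3 false).2 hQ⟩
    | false =>
      unfold Holds
      constructor
      · intro hw
        exact (h1 _ h2 h3 true).1 (hw _ h2 h3)
      · intro hQ w hw1 hw2
        exact (h1 w hw1 hw2 true).2 hQ

theorem holds_ex {N : ℕ} {P : List ℕ → Prop} (bs : List ℕ) (v : List ℕ) :
    Holds N P true (1 :: bs) v ↔ ∃ y < N, Holds N P false bs (v ++ [y]) := by
  constructor
  · intro h
    unfold Holds at h
    obtain ⟨w, hw1, hw2, hw⟩ := h
    obtain ⟨y, rfl⟩ := List.length_eq_one_iff.1 hw1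
    exact ⟨y, hw2 y (by simp), hw⟩
  · rintro ⟨y, hy, h⟩
    unfold Holds
    exact ⟨[y], rfl, fun a ha => by rw [List.mem_singleton.1 ha]; exact hy, h⟩

theorem holds_all {N : ℕ} {P : List ℕ → Prop} (bs : List ℕ) (v : List ℕ) :
    Holds N P false (1 :: bs) v ↔ ∀ y < N, Holds N P true bs (v ++ [y]) := by
  constructor
  · intro h y hy
    unfold Holds at h
    exact h [y] rfl fun a ha => by rw [List.mem_singleton.1 ha]; exact hy
  · intro h
    unfold Holds
    intro w hw1 hw2
    obtain ⟨y, rfl⟩ := List.length_eq_one_iff.1 hw1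
    exact h y (hw2 y (by simp))

theorem sum_rep (t : ℕ) : (List.replicate t 1).sum = t := by
  rw [List.sum_replicate]
  simp

/-- the quantifiers over small numbers -/
theorem holds_alt {A : Oracle} {lab : ℕ → List Bool} {ν : ℕ} {P : List ℕ → Prop} :
    ∀ (rest : List ℕ) (b : Bool) (v : List ℕ), (∀ a ∈ rest, a ≤ ν) →
      (∀ y : List ℕ, y.length = rest.length → (∀ a ∈ y, a < 2 ^ ν) →
        (P (v ++ y) ↔ ev b (small rest y) (A ((v ++ y).flatMap lab)) = true)) →
      (Holds (2 ^ ν) P b (List.replicate rest.length 1) v ↔ Alt A lab b rest v)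
  | [], b, v, _, h => by
    have h1 := h [] rfl (by simp)
    rw [List.append_nil] at h1
    have h2 : ev b (small [] []) (A (v.flatMap lab)) = A (v.flatMap lab) := by
      cases b <;> rfl
    rw [h2] at h1
    cases b <;> exact h1
  | r :: rs, b, v, hr, h => by
    have hN : 1 ≤ 2 ^ ν := Nat.one_le_two_pow
    have hr0 : 2 ^ r ≤ 2 ^ ν := Nat.pow_le_pow_right (by norm_num) (hr r (by simp))
    -- a small number
    have h1 : ∀ y < 2 ^ r, (Holds (2 ^ ν) P (!b) (List.replicate rs.length 1) (v ++ [y]) ↔
        Alt A lab (!b) rs (v ++ [y])) := by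
      intro y hy
      refine holds_alt rs (!b) (v ++ [y]) (fun a ha => hr a (List.mem_cons_of_mem _ ha))
        fun ys h1 h2 => ?_
      have h3 := h (y :: ys) (by rw [List.length_cons, List.length_cons, h1]) (by
        intro a ha
        rcases List.mem_cons.1 ha with ha | ha
        · rw [ha]
          omega
        · exact h2 a ha)
      have h4 : small (r :: rs) (y :: ys) = true :: small rs ys := by
        unfold small
        rw [List.zipWith_cons_cons, decide_eq_true hy]
      have h5 : v ++ [y] ++ ys = v ++ y :: ys := by simp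
      rw [h4] at h3
      rw [h5, h3]
      cases b <;> exact Iff.rfl
    -- a number which is not small
    have h2 : ∀ y < 2 ^ ν, ¬ y < 2 ^ r →
        (Holds (2 ^ ν) P (!b) (List.replicate rs.length 1) (v ++ [y]) ↔ (!b) = true) := by
      intro y hyN hy
      refine holds_const hN _ _ _ fun ys h1 h2 => ?_
      rw [sum_rep] at h1
      have h3 := h (y :: ys) (by rw [List.length_cons, List.length_cons, h1]) (by
        intro a ha
        rcases List.mem_cons.1 ha with ha | ha
        · rw [ha]
          exact hyN
        · exact h2 a ha)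
      have h4 : small (r :: rs) (y :: ys) = false :: small rs ys := by
        unfold small
        rw [List.zipWith_cons_cons, decide_eq_false hy]
      have h5 : v ++ [y] ++ ys = v ++ y :: ys := by simp
      rw [h4] at h3
      rw [h5, h3]
      cases b <;> exact Iff.rfl
    rw [List.length_cons, List.replicate_succ]
    cases b with
    | true =>
      rw [holds_ex]
      show _ ↔ ∃ y < 2 ^ r, Alt A lab false rs (v ++ [y])
      constructor
      · rintro ⟨y, hy, h3⟩
        by_cases hyr : y < 2 ^ r
        · exact ⟨y, hyr, (h1 y hyr).1 h3⟩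
        · exact absurd ((h2 y hy hyr).1 h3) (by simp)
      · rintro ⟨y, hy, h3⟩
        exact ⟨y, by omega, (h1 y hy).2 h3⟩
    | false =>
      rw [holds_all]
      show _ ↔ ∀ y < 2 ^ r, Alt A lab true rs (v ++ [y])
      constructor
      · intro h3 y hy
        exact (h1 y hy).1 (h3 y (by omega))
      · intro h3 y hy
        by_cases hyr : y < 2 ^ r
        · exact (h1 y hyr).2 (h3 y hyr)
        · exact (h2 y hy hyr).2 rfl

theorem kp_inj {ν s e e' : ℕ} (hs : s ≤ 2 ^ ν) (he : e < s) (he' : e' < s)
    (h : kp ν e = kp ν e') : e = e' := by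
  unfold kp at h
  omega

theorem labels_getD (n k c ν j : ℕ) (rest : List ℕ) (s : ℕ) (κ : ℕ → Bool) {a : ℕ}
    (ha : a < 2 ^ ν) : (hardk n k c ν j rest s κ).labels.getD a [] = labn n c ν j a := by
  show ((List.range (2 ^ ν)).map (labn n c ν j)).getD a [] = _
  rw [List.getD_eq_getElem _ _ (by simpa using ha)]
  simp

theorem getD_app {w y : List ℕ} {k : ℕ} (hw : w.length = k) (i : ℕ) :
    (w ++ y).getD (k + i) 0 = y.getD i 0 := by
  rw [List.getD_append_right _ _ _ _ (by omega)]
  congr 1
  omega

theorem flat_pre {n k c ν j : ℕ} {rest : List ℕ} {s : ℕ} {κ : ℕ → Bool} {u y : List ℕ}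
    {m : ℕ} (hm : u.length = m) (hu : ∀ a ∈ u, a < 2 ^ ν) :
    (List.range m).flatMap
      (fun i => (hardk n k c ν j rest s κ).labels.getD ((u ++ y).getD i 0) []) =
      u.flatMap (labn n c ν j) := by
  subst hm
  have h1 : (List.range u.length).flatMap
      (fun i => (hardk n k c ν j rest s κ).labels.getD ((u ++ y).getD i 0) []) =
      (List.range u.length).flatMap
      (fun i => (hardk n k c ν j rest s κ).labels.getD (u.getD i 0) []) := by
    refine flatMap_congr' fun i hi => ?_
    rw [List.mem_range] at hi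
    rw [List.getD_append _ _ _ _ hi]
  rw [h1, flat_getD u (fun a => (hardk n k c ν j rest s κ).labels.getD a [])]
  exact flatMap_congr' fun a ha => labels_getD n k c ν j rest s κ (hu a ha)

/-- the vector of the truth values of the atoms -/
theorem vec {A : Oracle} {n k c ν j : ℕ} {rest : List ℕ} {s : ℕ} {κ : ℕ → Bool} {w : List ℕ}
    {y : ℕ} {ys : List ℕ} (hw : w.length = k) (hwN : ∀ a ∈ w, a < 2 ^ ν)
    (hy : (y :: ys).length = rest.length) (hyN : ∀ a ∈ y :: ys, a < 2 ^ ν) :
    (hardk n k c ν j rest s κ).atoms.map ((hardk n k c ν j rest s κ).atom A (w ++ y :: ys)) =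
      decide (∃ e < s, kp ν e = y) :: decide (∃ e < s, κ e = true ∧ kp ν e = y) ::
      A ((w ++ [y]).flatMap (labn n c ν j)) :: A ((w ++ y :: ys).flatMap (labn n c ν j)) ::
      small rest (y :: ys) := by
  have hk : (w ++ y :: ys).getD k 0 = y := by
    have := getD_app (w := w) (y := y :: ys) hw 0
    rw [add_zero] at this
    rw [this]
    rfl
  have e1 : (hardk n k c ν j rest s κ).atom A (w ++ y :: ys) (1, [k, k]) =
      decide (∃ e < s, kp ν e = y) := by
    show decide (((w ++ y :: ys).getD k 0, (w ++ y :: ys).getD k 0) ∈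
      (List.range s).map (fun e => (kp ν e, kp ν e))) = _
    rw [hk]
    apply decide_eq_decide.2
    rw [List.mem_map]
    constructor
    · rintro ⟨e, he, h⟩
      exact ⟨e, List.mem_range.1 he, (Prod.mk.inj h).1⟩
    · rintro ⟨e, he, h⟩
      exact ⟨e, List.mem_range.2 he, by rw [h]⟩
  have e2 : (hardk n k c ν j rest s κ).atom A (w ++ y :: ys) (2, [k, k]) =
      decide (∃ e < s, κ e = true ∧ kp ν e = y) := by
    show decide (((w ++ y :: ys).getD k 0, (w ++ y :: ys).getD k 0) ∈
      ((List.range s).filter κ).map (fun e => (kp ν e, kp ν e))) = _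
    rw [hk]
    apply decide_eq_decide.2
    rw [List.mem_map]
    constructor
    · rintro ⟨e, he, h⟩
      rw [List.mem_filter, List.mem_range] at he
      exact ⟨e, he.1, he.2, (Prod.mk.inj h).1⟩
    · rintro ⟨e, he, he2, h⟩
      exact ⟨e, List.mem_filter.2 ⟨List.mem_range.2 he, he2⟩, by rw [h]⟩
  have e3 : (hardk n k c ν j rest s κ).atom A (w ++ y :: ys) (0, List.range (k + 1)) =
      A ((w ++ [y]).flatMap (labn n c ν j)) := by
    show A ((List.range (k + 1)).flatMap
      (fun i => (hardk n k c ν j rest s κ).labels.getD ((w ++ y :: ys).getD i 0) [])) = _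
    have h5 : w ++ y :: ys = (w ++ [y]) ++ ys := by simp
    rw [h5, flat_pre (u := w ++ [y]) (y := ys) (by simp [hw])]
    intro a ha
    rcases List.mem_append.1 ha with ha | ha
    · exact hwN a ha
    · rw [List.mem_singleton.1 ha]
      exact hyN y (by simp)
  have e4 : (hardk n k c ν j rest s κ).atom A (w ++ y :: ys) (0, List.range (k + rest.length)) =
      A ((w ++ y :: ys).flatMap (labn n c ν j)) := by
    show A ((List.range (k + rest.length)).flatMap
      (fun i => (hardk n k c ν j rest s κ).labels.getD ((w ++ y :: ys).getD i 0) [])) = _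
    have h6 := flat_pre (n := n) (k := k) (c := c) (j := j) (rest := rest) (s := s) (κ := κ)
      (u := w ++ y :: ys) (y := []) (m := k + rest.length)
      (by rw [List.length_append, hw, hy]) (by
        intro a ha
        rcases List.mem_append.1 ha with ha | ha
        · exact hwN a ha
        · exact hyN a ha)
    rw [List.append_nil] at h6
    rw [h6]
  have e5 : ((List.range rest.length).map fun i => (i + 3, [k + i, k + i])).map
      ((hardk n k c ν j rest s κ).atom A (w ++ y :: ys)) = small rest (y :: ys) := by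
    rw [List.map_map]
    apply List.ext_getElem
    · rw [length_small hy]
      simp
    · intro i h1 h2
      have hi : i < rest.length := by simpa using h1
      have hi2 : i < (y :: ys).length := by rw [hy]; exact hi
      rw [List.getElem_map, List.getElem_range]
      rw [small_get h2 hi hi2]
      show decide (((w ++ y :: ys).getD (k + i) 0, (w ++ y :: ys).getD (k + i) 0) ∈
        (rest.map fun r => (List.range (2 ^ r)).map fun y => (y, y)).getD i []) = _
      rw [getD_app hw, List.getD_eq_getElem _ _ hi2,
        List.getD_eq_getElem _ _ (by simpa using hi), List.getElem_map]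
      apply decide_eq_decide.2
      rw [List.mem_map]
      constructor
      · rintro ⟨a, ha, h⟩
        rw [← (Prod.mk.inj h).1]
        exact List.mem_range.1 ha
      · intro h
        exact ⟨_, List.mem_range.2 h, rfl⟩
  show (hardk n k c ν j rest s κ).atom A (w ++ y :: ys) (1, [k, k]) ::
    (hardk n k c ν j rest s κ).atom A (w ++ y :: ys) (2, [k, k]) ::
    (hardk n k c ν j rest s κ).atom A (w ++ y :: ys) (0, List.range (k + 1)) ::
    (hardk n k c ν j rest s κ).atom A (w ++ y :: ys) (0, List.range (k + rest.length)) ::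
    ((List.range rest.length).map fun i => (i + 3, [k + i, k + i])).map
      ((hardk n k c ν j rest s κ).atom A (w ++ y :: ys)) = _
  rw [e1, e2, e3, e4, e5]

/-- **SATK.** The truth of the instances with keys, for every oracle. -/
theorem t_satk : S_satk := by
  classical
  intro A n k c ν j r rs s κ hrest hs
  have hN : (hardk n k c ν j (r :: rs) s κ).labels.length = 2 ^ ν := by
    show ((List.range (2 ^ ν)).map (labn n c ν j)).length = _
    rw [List.length_map, List.length_range]
  have hN1 : 1 ≤ 2 ^ ν := Nat.one_le_two_pow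
  have h2r : 1 ≤ 2 ^ r := Nat.one_le_two_pow
  obtain ⟨P, hP⟩ : ∃ P : List ℕ → Prop, P = fun v =>
    (hardk n k c ν j (r :: rs) s κ).atoms.map ((hardk n k c ν j (r :: rs) s κ).atom A v) ∈
      (hardk n k c ν j (r :: rs) s κ).acc := ⟨_, rfl⟩
  have hP1 : ∀ (w : List ℕ) (y : ℕ) (ys : List ℕ), w.length = k → (∀ a ∈ w, a < 2 ^ ν) →
      y < 2 ^ ν → ys.length = rs.length → (∀ a ∈ ys, a < 2 ^ ν) →
      (P (w ++ y :: ys) ↔ (if (∃ e < s, kp ν e = y) then
        (A ((w ++ [y]).flatMap (labn n c ν j)) == decide (∃ e < s, κ e = true ∧ kp ν e = y))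
        else ev false (small (r :: rs) (y :: ys)) (A ((w ++ y :: ys).flatMap (labn n c ν j)))) =
          true) := by
    intro w y ys hw hwN hy hys hysN
    have h1 : (y :: ys).length = (r :: rs).length := by
      rw [List.length_cons, List.length_cons, hys]
    have h2 : ∀ a ∈ y :: ys, a < 2 ^ ν := by
      intro a ha
      rcases List.mem_cons.1 ha with ha | ha
      · rw [ha]
        exact hy
      · exact hysN a ha
    rw [hP]
    dsimp only
    rw [vec hw hwN h1 h2]
    show _ ∈ (allB ((r :: rs).length + 4)).filter Phi ↔ _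
    rw [List.mem_filter, mem_allB]
    have h3 : (decide (∃ e < s, kp ν e = y) :: decide (∃ e < s, κ e = true ∧ kp ν e = y) ::
      A ((w ++ [y]).flatMap (labn n c ν j)) :: A ((w ++ y :: ys).flatMap (labn n c ν j)) ::
      small (r :: rs) (y :: ys)).length = (r :: rs).length + 4 := by
      simp only [List.length_cons]
      rw [length_small h1, List.length_cons]
    rw [eq_true h3, true_and]
    unfold Phi
    simp only [decide_eq_true_eq]
  -- the first quantifier after the block
  have hkey : ∀ w : List ℕ, w.length = k → (∀ a ∈ w, a < 2 ^ ν) → ∀ e < s,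
      (Holds (2 ^ ν) P true (List.replicate rs.length 1) (w ++ [kp ν e]) ↔
        A ((w ++ [kp ν e]).flatMap (labn n c ν j)) = κ e) := by
    intro w hw hwN e he
    refine holds_const hN1 _ _ _ fun ys h1 h2 => ?_
    rw [sum_rep] at h1
    have h3 := hP1 w (kp ν e) ys hw hwN (by unfold kp; omega) h1 h2
    have h4 : ∃ e' < s, kp ν e' = kp ν e := ⟨e, he, rfl⟩
    have h5 : decide (∃ e' < s, κ e' = true ∧ kp ν e' = kp ν e) = κ e := by
      by_cases hκ : κ e = true
      · rw [hκ, decide_eq_true_eq]
        exact ⟨e, he, hκ, rfl⟩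
      · have hκ' : κ e = false := by simpa using hκ
        rw [hκ', decide_eq_false_iff_not]
        rintro ⟨e', he', h6, h7⟩
        have h8 := kp_inj (by omega) he' he h7
        rw [h8, hκ'] at h6
        exact Bool.false_ne_true h6
    have h6 : w ++ [kp ν e] ++ ys = w ++ kp ν e :: ys := by simp
    rw [if_pos h4, h5, beq_iff_eq] at h3
    rw [h6]
    exact h3
  have hsmall : ∀ w : List ℕ, w.length = k → (∀ a ∈ w, a < 2 ^ ν) → ∀ y < 2 ^ r,
      (Holds (2 ^ ν) P true (List.replicate rs.length 1) (w ++ [y]) ↔
        Alt A (labn n c ν j) true rs (w ++ [y])) := by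
    intro w hw hwN y hy
    refine holds_alt rs true (w ++ [y]) (fun a ha => hrest a (List.mem_cons_of_mem _ ha))
      fun ys h1 h2 => ?_
    have h3 := hP1 w y ys hw hwN (by omega) h1 h2
    have h4 : ¬ ∃ e' < s, kp ν e' = y := by
      rintro ⟨e, he, h4⟩
      unfold kp at h4
      omega
    have h5 : small (r :: rs) (y :: ys) = true :: small rs ys := by
      unfold small
      rw [List.zipWith_cons_cons, decide_eq_true hy]
    have h6 : w ++ [y] ++ ys = w ++ y :: ys := by simp
    rw [if_neg h4, h5] at h3
    rw [h6]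
    exact h3
  have hbig : ∀ w : List ℕ, w.length = k → (∀ a ∈ w, a < 2 ^ ν) → ∀ y < 2 ^ ν, ¬ y < 2 ^ r →
      (¬ ∃ e' < s, kp ν e' = y) →
      Holds (2 ^ ν) P true (List.replicate rs.length 1) (w ++ [y]) := by
    intro w hw hwN y hyN hy h4
    have := holds_const (P := P) (Q := True) hN1 (List.replicate rs.length 1) true (w ++ [y])
      fun ys h1 h2 => by
        rw [sum_rep] at h1
        have h3 := hP1 w y ys hw hwN hyN h1 h2
        have h5 : small (r :: rs) (y :: ys) = false :: small rs ys := by
          unfold small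
          rw [List.zipWith_cons_cons, decide_eq_false hy]
        have h6 : w ++ [y] ++ ys = w ++ y :: ys := by simp
        rw [if_neg h4, h5] at h3
        rw [h6, h3]
        exact ⟨fun _ => trivial, fun _ => rfl⟩
    exact this.2 trivial
  have hmain : ∀ w : List ℕ, w.length = k → (∀ a ∈ w, a < 2 ^ ν) →
      (Holds (2 ^ ν) P false (List.replicate (r :: rs).length 1) w ↔
        (∀ e < s, A ((w ++ [kp ν e]).flatMap (labn n c ν j)) = κ e) ∧
        Alt A (labn n c ν j) false (r :: rs) w) := by
    intro w hw hwN
    rw [List.length_cons, List.replicate_succ, holds_all]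
    show _ ↔ _ ∧ ∀ y < 2 ^ r, Alt A (labn n c ν j) true rs (w ++ [y])
    constructor
    · intro h
      refine ⟨fun e he => (hkey w hw hwN e he).1 (h _ (by unfold kp; omega)), fun y hy => ?_⟩
      exact (hsmall w hw hwN y hy).1 (h y (by omega))
    · rintro ⟨h1, h2⟩ y hy
      by_cases hk : ∃ e' < s, kp ν e' = y
      · obtain ⟨e, he, rfl⟩ := hk
        exact (hkey w hw hwN e he).2 (h1 e he)
      · by_cases hyr : y < 2 ^ r
        · exact (hsmall w hw hwN y hyr).2 (h2 y hyr)
        · exact hbig w hw hwN y hy hyr hk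
  have hsat : (hardk n k c ν j (r :: rs) s κ).Sat A ↔ ∃ w : List ℕ, w.length = k ∧
      (∀ a ∈ w, a < 2 ^ ν) ∧
      Holds (2 ^ ν) P false (List.replicate (r :: rs).length 1) w := by
    unfold Inst.Sat
    rw [hN, hP]
    show (∃ w : List ℕ, w.length = k ∧ (∀ a ∈ w, a < 2 ^ ν) ∧
      Holds (2 ^ ν) _ false (List.replicate (r :: rs).length 1) ([] ++ w)) ↔ _
    simp only [List.nil_append]
  rw [hsat]
  constructor
  · rintro ⟨w, h1, h2, h3⟩
    exact ⟨w, ⟨h1, h2⟩, (hmain w h1 h2).1 h3⟩
  · rintro ⟨w, ⟨h1, h2⟩, h3⟩
    exact ⟨w, h1, h2, (hmain w h1 h2).2 h3⟩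

end Pool.Agent.Y448.WN
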